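import Pool.Agent.NH86.HD.Fin
import Pool.Agent.NH86.HD.BD
import Pool.Agent.NH86.HD.CD
import Pool.Agent.NH86.HD.CG
import Pool.Agent.NH86.HD.CI
import Pool.Agent.NH86.HD.DCA
import Pool.Agent.NH86.HD.DCO
import Pool.Agent.NH86.HD.DOT
import Pool.Agent.NH86.HD.DST
import Pool.Agent.NH86.HD.FO
import Pool.Agent.NH86.HD.HP
import Pool.Agent.NH86.HD.NTH
import Pool.Agent.NH86.HD.ODI
import Pool.Agent.NH86.HD.OM
import Pool.Agent.NH86.HD.PAR
import Pool.Agent.NH86.HD.PG
import Pool.Agent.NH86.HD.RFL
import Pool.Agent.NH86.HD.UC
import Pool.Agent.NH86.HD.UN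
import Pool.Agent.NH86.HD.UNI
import Pool.Agent.NH86.HD.VTH

/-!
# `ω`-strongly measurable cardinals in HOD

The universe of sets is `ZFSet.{u}`; the definitions are in `Pool/Agent/NH86/HD/Stm.lean` (`OD`, `HOD`,
`Club`, `Stat`, `HODPart`, `PowHOD`, `OSM`, `OT`, `Cf`, `BlReg`, `ODp`), `Sng.lean` (`SingC`) and
`Fin.lean` (`DfReg`, `SingH`, `HODConj`, `Good`).

If a regular cardinal `l` is `ω`-strongly measurable in HOD then it has a closed unbounded set of ordinals
`a < l`, of all cofinalities, that stay regular for all small ordinal definable families: if an ordinal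
definable set `X` of fewer than `|a|` sets has a member `D ⊆ a` that is cofinal in `a` then the order type
of `D` is at least `a`. In particular this holds for the `D` in HOD, and for the `D` definable from
ordinals and a parameter in `V_t`, if `|V_t| < |a|`. If moreover `l` is a limit cardinal then many
singular cardinals below `l` are regular in HOD. So if there are arbitrarily large weakly inaccessible
cardinals and HOD, or at least the small ordinal definable families, are correct about singular cardinals
then the regular cardinals that are not `ω`-strongly measurable in HOD form a proper class.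
-/

set_option autoImplicit false

universe u

namespace Pool.Agent.Results.MP_ecfd11_lc.ClubOfRegulars

open Pool.Agent.NH86.HD Ordinal Cardinal

/-- Every regular uncountable cardinal `l` that is `ω`-strongly measurable in HOD has a closed unbounded
set of ordinals that are regular for all small ordinal definable families. If there are arbitrarily large
weakly inaccessible cardinals and every singular cardinal `a` is singular in HOD, or has at least a
cofinal subset of an order type less than `a` that belongs to an ordinal definable set of fewer than `a`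
sets, then the regular cardinals that are not `ω`-strongly measurable in HOD form a proper class. -/
theorem result :
    (∀ l : Cardinal.{u}, l.IsRegular → ℵ₀ < l → OSM l.ord → Good l) ∧
    ((∀ m : Cardinal.{u}, ∃ l : Cardinal.{u}, m < l ∧ l.IsRegular ∧ Order.IsSuccLimit l) →
      (∀ a : Ordinal.{u}, SingC a → SingH a ∨ ¬ BlReg a) → HODConj.{u}) := by
  have hCD : S_CD.{u} := t_CD0 t_CI
  have hFO : S_FO.{u} := t_FO0 hCD
  have hBD : S_BD.{u} := t_BD0 t_DST t_DCO t_DOT t_HP hFO t_NTH
  have hUN : S_UN.{u} := t_UN0 hBD t_CI hCD t_CG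
  have hPG : S_PG.{u} := t_PG0 t_DCO t_DOT t_DCA t_UNI t_CI hUN
  have hOM : S_OM.{u} := t_OM0 t_CI hCD hPG
  have h := main hOM t_UC t_ODI t_VTH t_PAR
  refine ⟨h.1, fun h1 h2 => h.2.1 fun m => ?_⟩
  obtain ⟨l, hm, hl, hlim⟩ := h1 (max m ℵ₀)
  have h0 : ℵ₀ < l := (le_max_right _ _).trans_lt hm
  refine ⟨l, (le_max_left _ _).trans_lt hm, hl, h0, fun C hC => ?_⟩
  obtain ⟨a, ha, ha'⟩ := stat_sing hl h0 hlim C hC
  exact ⟨a, ha, (h2 a ha').elim (not_blReg ha'.2.1) id⟩

end Pool.Agent.Results.MP_ecfd11_lc.ClubOfRegulars
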